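import Pool.Graph.R_seed8.Y262.EG.Def

/-!
# BR-2: finitely many functions such that each curve of bounded speed misses one of them
-/

set_option autoImplicit false
set_option linter.unusedSectionVars false

open Set Filter Topology
open scoped ContDiff Real

noncomputable section

namespace Pool.Agent.H351.BR

open Pool.Agent.Y262.EG

section

variable {M P : Type} [MetricSpace M] [CompactSpace M] [MetricSpace P] [CompactSpace P]

/-- a function on the surface is continuous if its lift is -/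
theorem cont_of {Ω : Set ℂ} {φ : ℂ → ℝ} {pr : ℂ → M} {q : Y → P} (hU : IsUT Ω φ pr q) (F : M → ℂ)
    (hF : ContinuousOn (fun z => F (pr z)) Ω) : Continuous F := by
  rw [continuous_def]
  intro V hV
  have h1 : IsOpen (Ω ∩ (fun z => F (pr z)) ⁻¹' V) := hF.isOpen_inter_preimage hU.opn hV
  have h2 : F ⁻¹' V = pr '' (Ω ∩ (fun z => F (pr z)) ⁻¹' V) := by
    ext x
    constructor
    · intro hx
      have h3 : x ∈ pr '' Ω := by rw [hU.surjp]; trivial
      obtain ⟨z, hz, rfl⟩ := h3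
      exact ⟨z, ⟨hz, hx⟩, rfl⟩
    · rintro ⟨z, ⟨hz, hx⟩, rfl⟩
      exact hx
  rw [h2]
  exact hU.opnp _ h1 inter_subset_left

/-- the coordinate function near a point -/
theorem exists_F {Ω : Set ℂ} {φ : ℂ → ℝ} {pr : ℂ → M} {q : Y → P} (hU : IsUT Ω φ pr q) (z0 : ℂ)
    (hz0 : z0 ∈ Ω) :
    ∃ (F : M → ℂ) (s B : ℝ), 0 < s ∧ 0 ≤ B ∧
      (∀ z ∈ Metric.ball z0 s, F (pr z) = z - z0) ∧
      ∀ z ∈ Ω, DifferentiableAt ℝ (fun ζ => F (pr ζ)) z ∧
        ‖fderiv ℝ (fun ζ => F (pr ζ)) z‖ ≤ B * Real.exp (φ z) := by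
  classical
  obtain ⟨r0, hr0, hball, hinj⟩ := hU.injp z0 hz0
  let χ : ContDiffBump z0 := ⟨r0 / 4, r0 / 2, by positivity, by linarith⟩
  set G : ℂ → ℂ := fun z => (χ z) • (z - z0) with hG
  have hGs : ContDiff ℝ 1 G := (χ.contDiff).smul (contDiff_id.sub contDiff_const)
  have hGd : Differentiable ℝ G := hGs.differentiable one_ne_zero
  have hGc : Continuous (fderiv ℝ G) := hGs.continuous_fderiv one_ne_zero
  have hG0 : ∀ z, z ∉ Metric.closedBall z0 (r0 / 2) → G z = 0 := by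
    intro z hz
    rw [Metric.mem_closedBall, not_le] at hz
    rw [hG]
    simp only
    rw [χ.zero_of_le_dist hz.le, zero_smul]
  have hGf0 : ∀ z, z ∉ Metric.closedBall z0 (r0 / 2) → fderiv ℝ G z = 0 := by
    intro z hz
    have h1 : G =ᶠ[𝓝 z] fun _ => 0 := by
      filter_upwards [Metric.isClosed_closedBall.isOpen_compl.mem_nhds hz] with ζ hζ
      exact hG0 ζ hζ
    rw [h1.fderiv_eq]
    simp
  have hK : Metric.closedBall z0 (r0 / 2) ⊆ Metric.ball z0 r0 :=
    Metric.closedBall_subset_ball (by linarith)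
  have hKΩ : Metric.closedBall z0 (r0 / 2) ⊆ Ω := hK.trans hball
  have hφc : ContinuousOn φ Ω := hU.smooth.continuousOn
  obtain ⟨B, hB⟩ := (isCompact_closedBall z0 (r0 / 2)).exists_bound_of_continuousOn
    (f := fun z => ‖fderiv ℝ G z‖ * Real.exp (-φ z))
    ((hGc.norm.continuousOn).mul ((hφc.mono hKΩ).neg.rexp))
  have hB0 : 0 ≤ B := (norm_nonneg _).trans (hB z0 (Metric.mem_closedBall_self (by positivity)))
  set F : M → ℂ := fun x => if h : ∃ w ∈ Metric.ball z0 r0, pr w = x then G h.choose else 0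
    with hF
  have hFw : ∀ w ∈ Metric.ball z0 r0, F (pr w) = G w := by
    intro w hw
    have h : ∃ w' ∈ Metric.ball z0 r0, pr w' = pr w := ⟨w, hw, rfl⟩
    have h1 : h.choose = w := hinj h.choose_spec.1 hw h.choose_spec.2
    rw [hF]
    simp only
    rw [dif_pos h, h1]
  have hF0 : ∀ x, x ∉ pr '' Metric.closedBall z0 (r0 / 2) → F x = 0 := by
    intro x hx
    by_cases h : ∃ w ∈ Metric.ball z0 r0, pr w = x
    · obtain ⟨w, hw, rfl⟩ := h
      rw [hFw w hw]
      apply hG0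
      intro hw2
      exact hx ⟨w, hw2, rfl⟩
    · rw [hF]
      simp only
      rw [dif_neg h]
  refine ⟨F, r0 / 4, B, by positivity, hB0, ?_, ?_⟩
  · intro z hz
    rw [hFw z (Metric.ball_subset_ball (by linarith) hz), hG]
    simp only
    have h1 : χ z = 1 := χ.one_of_mem_closedBall (Metric.ball_subset_closedBall hz)
    rw [h1, one_smul]
  · intro z hz
    by_cases h : ∃ w ∈ Metric.ball z0 r0, pr w = pr z
    · obtain ⟨w, hw, hwz⟩ := h
      obtain ⟨θ', r, γ, hr, hbr, hγd, hγz, hγ, -⟩ := hU.deck z hz w (hball hw) hwz.symm 0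
      simp only at hbr hγd hγz hγ
      have hzr : z ∈ Metric.ball z r := Metric.mem_ball_self hr
      have hγa : DifferentiableAt ℂ γ z :=
        hγd.differentiableAt (Metric.isOpen_ball.mem_nhds hzr)
      have hγc : ContinuousAt γ z := hγa.continuousAt
      have hev : (fun ζ => F (pr ζ)) =ᶠ[𝓝 z] fun ζ => G (γ ζ) := by
        have h1 : ∀ᶠ ζ in 𝓝 z, γ ζ ∈ Metric.ball z0 r0 := by
          apply hγc.eventually_mem
          rw [hγz]
          exact Metric.isOpen_ball.mem_nhds hw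
        filter_upwards [h1, Metric.isOpen_ball.mem_nhds hzr] with ζ h2 h3
        rw [← (hγ ζ h3).2.1, hFw _ h2]
      have hγf : HasFDerivAt γ (fderiv ℝ γ z) z := (hγa.restrictScalars ℝ).hasFDerivAt
      have hGf : HasFDerivAt G (fderiv ℝ G (γ z)) (γ z) := (hGd (γ z)).hasFDerivAt
      have hcomp : HasFDerivAt (fun ζ => G (γ ζ)) ((fderiv ℝ G (γ z)).comp (fderiv ℝ γ z)) z :=
        hGf.comp z hγf
      have hres := hcomp.congr_of_eventuallyEq hev
      refine ⟨hres.differentiableAt, ?_⟩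
      rw [hres.fderiv]
      have hγn : ‖fderiv ℝ γ z‖ ≤ ‖deriv γ z‖ := by
        refine ContinuousLinearMap.opNorm_le_bound _ (norm_nonneg _) fun v => ?_
        have h1 : HasFDerivAt γ ((fderiv ℂ γ z).restrictScalars ℝ) z :=
          hγa.hasFDerivAt.restrictScalars ℝ
        rw [h1.fderiv, ContinuousLinearMap.coe_restrictScalars']
        have h2 : fderiv ℂ γ z v = v • deriv γ z := fderiv_eq_smul_deriv v
        rw [h2, norm_smul, mul_comm]
      obtain ⟨-, -, hne, hlog⟩ := hγ z hzr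
      rw [hγz] at hlog
      have hd : ‖deriv γ z‖ = Real.exp (-φ w) * Real.exp (φ z) := by
        rw [← Real.exp_add, ← Real.exp_log (norm_pos_iff.mpr hne)]
        congr 1
        linarith
      refine (ContinuousLinearMap.opNorm_comp_le _ _).trans ?_
      rw [hγz]
      calc ‖fderiv ℝ G w‖ * ‖fderiv ℝ γ z‖ ≤ ‖fderiv ℝ G w‖ * (Real.exp (-φ w) * Real.exp (φ z)) := by
            rw [← hd]
            exact mul_le_mul_of_nonneg_left hγn (norm_nonneg _)
        _ = (‖fderiv ℝ G w‖ * Real.exp (-φ w)) * Real.exp (φ z) := by ring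
        _ ≤ B * Real.exp (φ z) := by
            refine mul_le_mul_of_nonneg_right ?_ (Real.exp_pos _).le
            by_cases hwK : w ∈ Metric.closedBall z0 (r0 / 2)
            · exact (le_abs_self _).trans (hB w hwK)
            · rw [hGf0 w hwK, norm_zero, zero_mul]
              exact hB0
    · have hcomp : IsCompact (pr '' Metric.closedBall z0 (r0 / 2)) :=
        (isCompact_closedBall z0 (r0 / 2)).image_of_continuousOn (hU.contp.mono hKΩ)
      have hnot : pr z ∉ pr '' Metric.closedBall z0 (r0 / 2) := by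
        rintro ⟨w, hw, hwz⟩
        exact h ⟨w, hK hw, hwz⟩
      have hpc : ContinuousAt pr z := hU.contp.continuousAt (hU.opn.mem_nhds hz)
      have hev : (fun ζ => F (pr ζ)) =ᶠ[𝓝 z] fun _ => 0 := by
        have h1 : ∀ᶠ ζ in 𝓝 z, pr ζ ∈ (pr '' Metric.closedBall z0 (r0 / 2))ᶜ :=
          hpc.eventually_mem (hcomp.isClosed.isOpen_compl.mem_nhds hnot)
        filter_upwards [h1] with ζ hζ
        exact hF0 _ hζ
      have hres : HasFDerivAt (fun ζ => F (pr ζ)) (0 : ℂ →L[ℝ] ℂ) z :=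
        (hasFDerivAt_const (0:ℂ) z).congr_of_eventuallyEq hev
      refine ⟨hres.differentiableAt, ?_⟩
      rw [hres.fderiv, norm_zero]
      positivity

end

/-- the points -/
def pt (k : ℕ) (s : ℝ) (ab : Fin k × Fin k) : ℂ :=
  ((s / 4 : ℝ) : ℂ) * (1 + ((((ab.1 : ℕ) : ℝ) / k : ℝ) : ℂ) + ((((ab.2 : ℕ) : ℝ) / k : ℝ) : ℂ) * Complex.I)

theorem pt_re (k : ℕ) (s : ℝ) (ab : Fin k × Fin k) :
    (pt k s ab).re = s / 4 * (1 + ((ab.1 : ℕ) : ℝ) / k) := by
  unfold pt
  rw [Complex.re_ofReal_mul]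
  simp

theorem pt_im (k : ℕ) (s : ℝ) (ab : Fin k × Fin k) :
    (pt k s ab).im = s / 4 * (((ab.2 : ℕ) : ℝ) / k) := by
  unfold pt
  rw [Complex.im_ofReal_mul]
  simp

theorem pt_norm (k : ℕ) (s : ℝ) (hs : 0 < s) (hk : 0 < k) (ab : Fin k × Fin k) :
    ‖pt k s ab‖ < s := by
  have h1 := Complex.norm_le_abs_re_add_abs_im (pt k s ab)
  rw [pt_re, pt_im] at h1
  have hk' : (0:ℝ) < k := by exact_mod_cast hk
  have h2 : (((ab.1 : ℕ) : ℝ)) / k < 1 := by
    rw [div_lt_one hk']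
    exact_mod_cast ab.1.2
  have h3 : (((ab.2 : ℕ) : ℝ)) / k < 1 := by
    rw [div_lt_one hk']
    exact_mod_cast ab.2.2
  rw [abs_of_nonneg (by positivity), abs_of_nonneg (by positivity)] at h1
  nlinarith

theorem pt_dist (k : ℕ) (s : ℝ) (hs : 0 < s) (hk : 0 < k) (ab cd : Fin k × Fin k) (h : ab ≠ cd) :
    s / (4 * k) ≤ ‖pt k s ab - pt k s cd‖ := by
  have hk' : (0:ℝ) < k := by exact_mod_cast hk
  have key : ∀ a b : ℕ, a ≠ b → (1:ℝ) ≤ |(a : ℝ) - b| := by
    intro a b hab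
    have h1 : (1:ℤ) ≤ |(a : ℤ) - b| := Int.one_le_abs (by omega)
    have h2 : ((1:ℤ) : ℝ) ≤ ((|(a : ℤ) - b| : ℤ) : ℝ) := by exact_mod_cast h1
    simpa using h2
  by_cases h1 : ab.1 = cd.1
  · have h2 : ab.2 ≠ cd.2 := fun h3 => h (Prod.ext h1 h3)
    have h4 : (ab.2 : ℕ) ≠ (cd.2 : ℕ) := fun h5 => h2 (Fin.ext h5)
    refine le_trans ?_ (Complex.abs_im_le_norm _)
    rw [Complex.sub_im, pt_im, pt_im]
    have h5 : s / 4 * (((ab.2 : ℕ) : ℝ) / k) - s / 4 * (((cd.2 : ℕ) : ℝ) / k) =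
        s / (4 * k) * (((ab.2 : ℕ) : ℝ) - ((cd.2 : ℕ) : ℝ)) := by
      field_simp
    rw [h5, abs_mul, abs_of_pos (by positivity)]
    exact le_mul_of_one_le_right (by positivity) (key _ _ h4)
  · have h4 : (ab.1 : ℕ) ≠ (cd.1 : ℕ) := fun h5 => h1 (Fin.ext h5)
    refine le_trans ?_ (Complex.abs_re_le_norm _)
    rw [Complex.sub_re, pt_re, pt_re]
    have h5 : s / 4 * (1 + ((ab.1 : ℕ) : ℝ) / k) - s / 4 * (1 + ((cd.1 : ℕ) : ℝ) / k) =
        s / (4 * k) * (((ab.1 : ℕ) : ℝ) - ((cd.1 : ℕ) : ℝ)) := by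
      field_simp
      ring
    rw [h5, abs_mul, abs_of_pos (by positivity)]
    exact le_mul_of_one_le_right (by positivity) (key _ _ h4)

theorem count (k : ℕ) (s L : ℝ) (hs : 0 < s) (hL : 1 ≤ L) (hk : 16 * π * L / s + 1 < k)
    (g : ℝ → ℂ) (hg : ∀ t t', ‖g t - g t'‖ ≤ L * |t - t'|) (tt : Fin k × Fin k → ℝ)
    (htt : ∀ ab, tt ab ∈ Icc 0 (2 * π)) (hcl : ∀ ab, ‖g (tt ab) - pt k s ab‖ < s / (16 * k)) :
    False := by
  have hπ := Real.pi_pos
  have hk0 : (0:ℝ) < k := lt_trans (by positivity) hk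
  have hk1 : 0 < k := by exact_mod_cast hk0
  set N : Fin k × Fin k → ℕ := fun ab => ⌊tt ab * (8 * L * k / s)⌋₊ with hN
  have hA : 0 < 8 * L * k / s := by positivity
  have hinj : Function.Injective N := by
    intro ab cd h
    by_contra hne
    have h1 := pt_dist k s hs hk1 ab cd hne
    have n1 : 0 ≤ tt ab * (8 * L * k / s) := mul_nonneg (htt ab).1 hA.le
    have n2 : 0 ≤ tt cd * (8 * L * k / s) := mul_nonneg (htt cd).1 hA.le
    have f1 := Nat.floor_le n1
    have f2 := Nat.lt_floor_add_one (tt ab * (8 * L * k / s))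
    have f3 := Nat.floor_le n2
    have f4 := Nat.lt_floor_add_one (tt cd * (8 * L * k / s))
    have h' : ⌊tt ab * (8 * L * k / s)⌋₊ = ⌊tt cd * (8 * L * k / s)⌋₊ := h
    rw [h'] at f1 f2
    have h2 : |tt ab - tt cd| * (8 * L * k / s) < 1 := by
      have e0 : |tt ab - tt cd| * (8 * L * k / s) = |(tt ab - tt cd) * (8 * L * k / s)| := by
        rw [abs_mul, abs_of_pos hA]
      rw [e0, sub_mul, abs_lt]
      constructor <;> linarith
    have h3 : L * |tt ab - tt cd| < s / (8 * k) := by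
      have e : |tt ab - tt cd| * (8 * L * k / s) = (L * |tt ab - tt cd|) / (s / (8 * k)) := by
        field_simp
      rw [e, div_lt_one (by positivity)] at h2
      exact h2
    have h4 := hg (tt ab) (tt cd)
    have h5 := hcl ab
    have h6 := hcl cd
    have h7 : ‖pt k s ab - pt k s cd‖ ≤ ‖g (tt ab) - pt k s ab‖ + ‖g (tt ab) - g (tt cd)‖ +
        ‖g (tt cd) - pt k s cd‖ := by
      have e : pt k s ab - pt k s cd = -(g (tt ab) - pt k s ab) + (g (tt ab) - g (tt cd)) +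
          (g (tt cd) - pt k s cd) := by ring
      rw [e]
      refine (norm_add_le _ _).trans (add_le_add_left ((norm_add_le _ _).trans ?_) _)
      rw [norm_neg]
    have h8 : s / (4 * k) = 2 * (s / (16 * k)) + s / (8 * k) := by
      field_simp
      ring
    linarith
  have hmem : ∀ ab, N ab ∈ Finset.range (⌊16 * π * L * k / s⌋₊ + 1) := by
    intro ab
    rw [Finset.mem_range, Nat.lt_succ_iff]
    refine Nat.floor_le_floor ?_
    calc tt ab * (8 * L * k / s) ≤ 2 * π * (8 * L * k / s) :=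
          mul_le_mul_of_nonneg_right (htt ab).2 hA.le
      _ = _ := by ring
  have hcard : Fintype.card (Fin k × Fin k) ≤ ⌊16 * π * L * k / s⌋₊ + 1 := by
    have h1 := Finset.card_le_card_of_injOn (s := (Finset.univ : Finset (Fin k × Fin k)))
      (t := Finset.range (⌊16 * π * L * k / s⌋₊ + 1)) N (fun ab _ => hmem ab) hinj.injOn
    rwa [Finset.card_univ, Finset.card_range] at h1
  rw [Fintype.card_prod, Fintype.card_fin] at hcard
  have h1 : (k : ℝ) * k ≤ ⌊16 * π * L * k / s⌋₊ + 1 := by exact_mod_cast hcard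
  have h2 : (⌊16 * π * L * k / s⌋₊ : ℝ) ≤ 16 * π * L * k / s := Nat.floor_le (by positivity)
  have h3 : (k : ℝ) * (16 * π * L / s + 1) < k * k := mul_lt_mul_of_pos_left hk hk0
  have h4 : (1:ℝ) ≤ k := by exact_mod_cast hk1
  have h5 : (k : ℝ) * (16 * π * L / s + 1) = 16 * π * L * k / s + k := by ring
  linarith

/-- BR-2 -/
theorem miss : ∀ (M P : Type) [MetricSpace M] [CompactSpace M] [MetricSpace P] [CompactSpace P]
    (Ω : Set ℂ) (φ : ℂ → ℝ) (pr : ℂ → M) (q : Y → P), IsUT Ω φ pr q → ∀ R : ℝ,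
    ∃ T : Finset C(M, ℝ), (∀ h ∈ T, (∀ x, 0 ≤ h x) ∧ ∃ x, h x ≠ 0) ∧
    ∀ c : ℝ → ℂ, ContDiff ℝ 1 c → (∀ t, c t ∈ Ω) →
      (∀ t, ‖deriv c t‖ ≤ R * Real.exp (-φ (c t))) →
      ∃ h ∈ T, ∀ t ∈ Icc 0 (2 * π), h (pr (c t)) = 0 := by
  classical
  intro M P _ _ _ _ Ω φ pr q hU R
  by_cases hne : Ω.Nonempty
  swap
  · refine ⟨∅, fun h hh => absurd hh (Finset.notMem_empty h), fun c _ hc _ => ?_⟩
    exact absurd ⟨c 0, hc 0⟩ hne
  obtain ⟨z0, hz0⟩ := hne
  obtain ⟨F, s, B, hs, hB0, hFs, hFd⟩ := exists_F hU z0 hz0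
  have hFc : Continuous F := cont_of hU F fun z hz => (hFd z hz).1.continuousAt.continuousWithinAt
  set L : ℝ := max (B * R) 1 with hL
  have hL1 : 1 ≤ L := le_max_right _ _
  obtain ⟨k, hk⟩ := exists_nat_gt (16 * π * L / s + 1)
  have hπ := Real.pi_pos
  have hk0 : (0:ℝ) < k := lt_trans (by positivity) hk
  have hk1 : 0 < k := by exact_mod_cast hk0
  set hh : Fin k × Fin k → C(M, ℝ) := fun ab =>
    ⟨fun x => max 0 (s / (16 * k) - ‖F x - pt k s ab‖), by fun_prop⟩ with hhh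
  refine ⟨Finset.univ.image hh, ?_, ?_⟩
  · intro h hmem
    obtain ⟨ab, -, rfl⟩ := Finset.mem_image.mp hmem
    refine ⟨fun x => le_max_left _ _, pr (z0 + pt k s ab), ?_⟩
    have h1 : F (pr (z0 + pt k s ab)) = pt k s ab := by
      rw [hFs (z0 + pt k s ab) (by
        rw [Metric.mem_ball, dist_eq_norm, add_sub_cancel_left]
        exact pt_norm k s hs hk1 ab), add_sub_cancel_left]
    have h2 : hh ab (pr (z0 + pt k s ab)) = s / (16 * k) := by
      show max 0 (s / (16 * k) - ‖F (pr (z0 + pt k s ab)) - pt k s ab‖) = _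
      rw [h1, sub_self, norm_zero, sub_zero, max_eq_right (by positivity)]
    rw [h2]
    positivity
  · intro c hc hcΩ hcs
    by_contra hcon
    push Not at hcon
    have hcon2 : ∀ ab : Fin k × Fin k, ∃ t ∈ Icc 0 (2 * π), hh ab (pr (c t)) ≠ 0 := fun ab =>
      hcon (hh ab) (Finset.mem_image_of_mem _ (Finset.mem_univ ab))
    choose tt htt hne using hcon2
    have hder : ∀ t, HasDerivAt (fun t => F (pr (c t)))
        (fderiv ℝ (fun ζ => F (pr ζ)) (c t) (deriv c t)) t := by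
      intro t
      have h1 : HasDerivAt c (deriv c t) t := (hc.differentiable one_ne_zero t).hasDerivAt
      exact ((hFd (c t) (hcΩ t)).1.hasFDerivAt).comp_hasDerivAt t h1
    have hbd : ∀ t, ‖deriv (fun t => F (pr (c t))) t‖ ≤ L := by
      intro t
      rw [(hder t).deriv]
      calc ‖fderiv ℝ (fun ζ => F (pr ζ)) (c t) (deriv c t)‖ ≤
          ‖fderiv ℝ (fun ζ => F (pr ζ)) (c t)‖ * ‖deriv c t‖ := ContinuousLinearMap.le_opNorm _ _
        _ ≤ (B * Real.exp (φ (c t))) * (R * Real.exp (-φ (c t))) :=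
            mul_le_mul (hFd (c t) (hcΩ t)).2 (hcs t) (norm_nonneg _) (by positivity)
        _ = B * R * (Real.exp (φ (c t)) * Real.exp (-φ (c t))) := by ring
        _ = B * R := by rw [← Real.exp_add, add_neg_cancel, Real.exp_zero, mul_one]
        _ ≤ L := le_max_left _ _
    have hlip : ∀ t t', ‖F (pr (c t)) - F (pr (c t'))‖ ≤ L * |t - t'| := by
      intro t t'
      have := Convex.norm_image_sub_le_of_norm_deriv_le (𝕜 := ℝ)
        (f := fun t => F (pr (c t))) (C := L) (s := univ) (x := t') (y := t)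
        (fun x _ => (hder x).differentiableAt) (fun x _ => hbd x) convex_univ (mem_univ _)
        (mem_univ _)
      rwa [Real.norm_eq_abs] at this
    refine count k s L hs hL1 hk (fun t => F (pr (c t))) hlip tt htt fun ab => ?_
    have h1 := hne ab
    by_contra h2
    apply h1
    show max 0 (s / (16 * k) - ‖F (pr (c (tt ab))) - pt k s ab‖) = 0
    exact max_eq_left (by linarith [not_lt.mp h2])

end Pool.Agent.H351.BR
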