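import Pool.Agent.H240.BR.Def
import Pool.Agent.H351.BR.Miss

set_option autoImplicit false

namespace Pool.Agent.H351.BR

theorem stMiss : Pool.Agent.H240.BR.StMiss := miss

end Pool.Agent.H351.BR
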