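import Pool.Graph.R_seed8.Y262.EG.Def
import Pool.Graph.R_seed8.Y262.EX.Def
import Pool.Agent.H351.BR.Miss

/-!
# BR-5: a compact set of functions such that each curve of bounded speed misses one of them
-/

set_option autoImplicit false
set_option linter.unusedSectionVars false

open Set Filter Topology MeasureTheory
open scoped ContDiff Real NNReal ENNReal BoundedContinuousFunction

noncomputable section

namespace Pool.Agent.H351.BR

open Pool.Agent.Y262.EG Pool.Agent.Y262.EX

/-- Lipschitz curves in the plane are null sets -/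
theorem null_curve (a b : ℝ) (u : Icc a b → ℂ) (K : ℝ≥0) (hu : LipschitzWith K u) :
    volume (range u) = 0 := by
  set v : Icc a b → ℝ × ℝ := fun τ => ((u τ).re, (u τ).im) with hv
  have hvL : LipschitzWith K v := by
    refine LipschitzWith.of_dist_le_mul fun x y => ?_
    have h1 := hu.dist_le_mul x y
    rw [Prod.dist_eq]
    refine max_le ?_ ?_
    · refine le_trans ?_ h1
      rw [Real.dist_eq, dist_eq_norm, ← Complex.sub_re]
      exact Complex.abs_re_le_norm _
    · refine le_trans ?_ h1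
      rw [Real.dist_eq, dist_eq_norm, ← Complex.sub_im]
      exact Complex.abs_im_le_norm _
  have hd : dimH (range v) ≤ 1 := by
    refine hvL.dimH_range_le.trans ?_
    have h2 : dimH (univ : Set (Icc a b)) = dimH ((Subtype.val : Icc a b → ℝ) '' univ) :=
      (isometry_subtype_coe.dimH_image univ).symm
    rw [h2]
    exact (dimH_mono (subset_univ _)).trans Real.dimH_univ.le
  have hlt : dimH (range v) < ((2 : ℝ≥0) : ℝ≥0∞) := lt_of_le_of_lt hd (by norm_num)
  have h0 : (volume : Measure (ℝ × ℝ)) (range v) = 0 := by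
    rw [← hausdorffMeasure_prod_real]
    have := hausdorffMeasure_of_dimH_lt hlt
    simpa using this
  have hsub : range u ⊆ Complex.measurableEquivRealProd ⁻¹' (range v) := by
    rintro _ ⟨τ, rfl⟩
    exact ⟨τ, rfl⟩
  have hcv : IsCompact (range v) := isCompact_range hvL.continuous
  refine measure_mono_null hsub ?_
  rw [Complex.volume_preserving_equiv_real_prod.measure_preimage
    hcv.isClosed.measurableSet.nullMeasurableSet]
  exact h0

/-- the time interval -/
abbrev X : Type := ↥(Icc (0:ℝ) (2 * π))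

/-- BR-5 -/
theorem missK : ∀ (M P : Type) [MetricSpace M] [CompactSpace M] [MetricSpace P] [CompactSpace P]
    [MeasurableSpace M] [BorelSpace M] (Ω : Set ℂ) (φ : ℂ → ℝ) (pr : ℂ → M) (q : Y → P)
    (μ : Measure M), IsUT Ω φ pr q → IsArea Ω φ pr μ → ∀ R : ℝ, ∃ K : Set C(M, ℝ), IsCompact K ∧
    (∀ h ∈ K, (∀ x, 0 ≤ h x) ∧ μ {x | h x = 0} = 0) ∧
    ∀ c : ℝ → ℂ, ContDiff ℝ 1 c → (∀ t, c t ∈ Ω) →
      (∀ t, ‖deriv c t‖ ≤ R * Real.exp (-φ (c t))) →
      ∃ h ∈ K, ∀ t ∈ Icc 0 (2 * π), h (pr (c t)) = 0 := by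
  classical
  intro M P _ _ _ _ _ _ Ω φ pr q μ hU hA R
  have hπ := Real.pi_pos
  have hex : ∀ x : M, ∃ (z : ℂ) (F : M → ℂ) (s B : ℝ), 0 < s ∧ 0 ≤ B ∧ Metric.ball z s ⊆ Ω ∧
      pr z = x ∧ (∀ w ∈ Metric.ball z s, F (pr w) = w - z) ∧
      ∀ w ∈ Ω, DifferentiableAt ℝ (fun ζ => F (pr ζ)) w ∧
        ‖fderiv ℝ (fun ζ => F (pr ζ)) w‖ ≤ B * Real.exp (φ w) := by
    intro x
    have hx : x ∈ pr '' Ω := by rw [hU.surjp]; trivial
    obtain ⟨z, hz, rfl⟩ := hx
    obtain ⟨F, s, B, hs, hB, hFs, hFd⟩ := exists_F hU z hz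
    obtain ⟨r, hr, hrΩ⟩ := Metric.isOpen_iff.1 hU.opn z hz
    refine ⟨z, F, min s r, B, lt_min hs hr, hB,
      (Metric.ball_subset_ball (min_le_right _ _)).trans hrΩ, rfl, fun w hw => ?_, hFd⟩
    exact hFs w (Metric.ball_subset_ball (min_le_left _ _) hw)
  choose zz FF ss BB hs hB hball hprz hFs hFd using hex
  obtain ⟨T, hT⟩ := CompactSpace.elim_nhds_subcover (fun x : M => pr '' Metric.ball (zz x) (ss x))
    (fun x => (hU.opnp _ Metric.isOpen_ball (hball x)).mem_nhds
      ⟨zz x, Metric.mem_ball_self (hs x), hprz x⟩)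
  set F : M → (T → ℂ) := fun x i => FF i x with hF
  have hFFc : ∀ y : M, Continuous (FF y) := fun y =>
    cont_of hU (FF y) fun z hz => (hFd y z hz).1.continuousAt.continuousWithinAt
  have hFc : Continuous F := continuous_pi fun i => hFFc i
  obtain ⟨ρ, hρ⟩ := isCompact_univ.exists_bound_of_continuousOn hFc.continuousOn
  set L : ℝ≥0 := ∑ i : T, Real.toNNReal (BB i * |R|) with hL
  have hLi : ∀ i : T, BB i * R ≤ L := by
    intro i
    have h1 : Real.toNNReal (BB i * |R|) ≤ L :=
      Finset.single_le_sum (f := fun i : T => Real.toNNReal (BB i * |R|)) (fun _ _ => zero_le)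
        (Finset.mem_univ i)
    have h2 : BB i * R ≤ BB i * |R| := mul_le_mul_of_nonneg_left (le_abs_self R) (hB i)
    have h3 : BB i * |R| ≤ (Real.toNNReal (BB i * |R|) : ℝ) := Real.le_coe_toNNReal _
    exact h2.trans (h3.trans (by exact_mod_cast h1))
  -- the compact set of curves
  set A : Set (X →ᵇ (T → ℂ)) := {g | (∀ τ τ', dist (g τ) (g τ') ≤ L * dist τ τ') ∧
    ∀ τ, g τ ∈ Metric.closedBall 0 ρ} with hAdef
  have hAc : IsCompact A := by
    refine BoundedContinuousFunction.arzela_ascoli₂ (Metric.closedBall 0 ρ)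
      (isCompact_closedBall 0 ρ) A ?_ (fun f x hf => hf.2 x) ?_
    · have h1 : A = (⋂ τ : X, ⋂ τ' : X, {g : X →ᵇ (T → ℂ) | dist (g τ) (g τ') ≤ L * dist τ τ'}) ∩
          ⋂ τ : X, {g : X →ᵇ (T → ℂ) | g τ ∈ Metric.closedBall 0 ρ} := by
        ext g
        simp only [hAdef, mem_ofPred_eq, mem_inter_iff, mem_iInter]
      rw [h1]
      refine (isClosed_iInter fun τ => isClosed_iInter fun τ' => ?_).inter
        (isClosed_iInter fun τ => ?_)
      · refine isClosed_le ?_ continuous_const
        exact (continuous_eval_const _).dist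
          (continuous_eval_const _)
      · exact Metric.isClosed_closedBall.preimage
          (continuous_eval_const _)
    · exact (LipschitzWith.uniformEquicontinuous _ L fun g =>
        LipschitzWith.of_dist_le_mul g.2.1).equicontinuous
  have hXne : Nonempty X := ⟨⟨0, ⟨le_rfl, by positivity⟩⟩⟩
  set Ψ : (X →ᵇ (T → ℂ)) → C(M, ℝ) := fun g =>
    ⟨fun x => Metric.infDist (F x) (range g), (Metric.continuous_infDist_pt _).comp hFc⟩ with hΨ
  have hΨa : ∀ (g : X →ᵇ (T → ℂ)) (x : M), Ψ g x = Metric.infDist (F x) (range g) :=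
    fun _ _ => rfl
  have hle : ∀ (g g' : X →ᵇ (T → ℂ)) (y : T → ℂ),
      Metric.infDist y (range g) ≤ Metric.infDist y (range g') + dist g g' := by
    intro g g' y
    refine le_of_forall_pos_le_add fun ε hε => ?_
    obtain ⟨_, ⟨τ, rfl⟩, h1⟩ := (Metric.infDist_lt_iff (x := y) (s := range g')
      (range_nonempty _)).1 (lt_add_of_pos_right _ hε)
    have h2 : Metric.infDist y (range g) ≤ dist y (g τ) :=
      Metric.infDist_le_dist_of_mem (mem_range_self τ)
    have h3 : dist y (g τ) ≤ dist y (g' τ) + dist (g' τ) (g τ) := dist_triangle _ _ _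
    have h4 : dist (g' τ) (g τ) ≤ dist g' g := BoundedContinuousFunction.dist_coe_le_dist τ
    rw [dist_comm g' g] at h4
    linarith
  have hΨc : Continuous Ψ := by
    have : LipschitzWith 1 Ψ := by
      refine LipschitzWith.of_dist_le_mul fun g g' => ?_
      rw [NNReal.coe_one, one_mul, ContinuousMap.dist_le dist_nonneg]
      intro x
      rw [hΨa, hΨa, Real.dist_eq, abs_le]
      have h1 := hle g g' (F x)
      have h2 := hle g' g (F x)
      rw [dist_comm g' g] at h2
      constructor <;> linarith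
    exact this.continuous
  refine ⟨Ψ '' A, hAc.image hΨc, ?_, ?_⟩
  · rintro _ ⟨g, hg, rfl⟩
    refine ⟨fun x => Metric.infDist_nonneg, ?_⟩
    have hgc : IsCompact (range g) := isCompact_range g.continuous
    have hz : ∀ x, Ψ g x = 0 → F x ∈ range g := fun x hx =>
      (hgc.isClosed.mem_iff_infDist_zero (range_nonempty _)).2 hx
    set S : T → Set ℂ := fun i => Metric.ball (zz i) (ss i) ∩
      (fun w => w + -zz i) ⁻¹' (range fun τ : X => g τ i) with hS
    have hcov : {x | Ψ g x = 0} ⊆ ⋃ i : T, pr '' S i := by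
      intro x hx
      have hx1 : x ∈ ⋃ y ∈ T, pr '' Metric.ball (zz y) (ss y) := by
        rw [hT]; trivial
      rw [mem_iUnion₂] at hx1
      obtain ⟨y, hy, w, hw, hwx⟩ := hx1
      obtain ⟨τ, hτ⟩ := hz x hx
      refine mem_iUnion.2 ⟨⟨y, hy⟩, w, ⟨hw, ⟨τ, ?_⟩⟩, hwx⟩
      show g τ ⟨y, hy⟩ = w + -zz y
      rw [hτ]
      show FF y x = w + -zz y
      rw [← hwx, hFs y w hw, sub_eq_add_neg]
    refine measure_mono_null hcov (measure_iUnion_null fun i => ?_)
    have hgi : LipschitzWith L (fun τ : X => g τ i) := by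
      refine LipschitzWith.of_dist_le_mul fun τ τ' => ?_
      exact (dist_le_pi_dist (g τ) (g τ') i).trans (hg.1 τ τ')
    have hnull := null_curve 0 (2 * π) (fun τ : X => g τ i) L hgi
    have hNc : IsClosed (range fun τ : X => g τ i) := (isCompact_range hgi.continuous).isClosed
    have hSm : MeasurableSet (S i) :=
      Metric.isOpen_ball.measurableSet.inter
        (hNc.preimage (by fun_prop)).measurableSet
    have hSv : volume (S i) = 0 := by
      refine measure_mono_null inter_subset_right ?_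
      rw [measure_preimage_add_right]
      exact hnull
    have hinj : InjOn pr (S i) := by
      intro w hw w' hw' hww
      have h1 := hFs i w hw.1
      have h2 := hFs i w' hw'.1
      rw [hww, h2] at h1
      exact (sub_left_injective h1).symm
    rw [hA (S i) hSm (inter_subset_left.trans (hball i)) hinj]
    exact setLIntegral_measure_zero _ _ hSv
  · intro c hc hcΩ hcs
    have hder : ∀ (i : T) (t : ℝ), HasDerivAt (fun t => FF i (pr (c t)))
        (fderiv ℝ (fun ζ => FF i (pr ζ)) (c t) (deriv c t)) t := by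
      intro i t
      have h1 : HasDerivAt c (deriv c t) t := (hc.differentiable one_ne_zero t).hasDerivAt
      exact ((hFd i (c t) (hcΩ t)).1.hasFDerivAt).comp_hasDerivAt t h1
    have hbd : ∀ (i : T) (t : ℝ), ‖deriv (fun t => FF i (pr (c t))) t‖ ≤ L := by
      intro i t
      rw [(hder i t).deriv]
      calc ‖fderiv ℝ (fun ζ => FF i (pr ζ)) (c t) (deriv c t)‖ ≤
          ‖fderiv ℝ (fun ζ => FF i (pr ζ)) (c t)‖ * ‖deriv c t‖ :=
            ContinuousLinearMap.le_opNorm _ _
        _ ≤ (BB i * Real.exp (φ (c t))) * (R * Real.exp (-φ (c t))) :=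
            mul_le_mul (hFd i (c t) (hcΩ t)).2 (hcs t) (norm_nonneg _)
              (mul_nonneg (hB i) (Real.exp_pos _).le)
        _ = BB i * R * (Real.exp (φ (c t)) * Real.exp (-φ (c t))) := by ring
        _ = BB i * R := by rw [← Real.exp_add, add_neg_cancel, Real.exp_zero, mul_one]
        _ ≤ L := hLi i
    have hlip : ∀ (i : T) (t t' : ℝ), ‖FF i (pr (c t)) - FF i (pr (c t'))‖ ≤ L * |t - t'| := by
      intro i t t'
      have := Convex.norm_image_sub_le_of_norm_deriv_le (𝕜 := ℝ)
        (f := fun t => FF i (pr (c t))) (C := L) (s := univ) (x := t') (y := t)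
        (fun x _ => (hder i x).differentiableAt) (fun x _ => hbd i x) convex_univ (mem_univ _)
        (mem_univ _)
      rwa [Real.norm_eq_abs] at this
    have hgcont : Continuous (fun τ : X => F (pr (c τ))) := by
      refine continuous_pi fun i => ?_
      have h1 : Continuous (fun t : ℝ => FF i (pr (c t))) :=
        continuous_iff_continuousAt.2 fun t => (hder i t).continuousAt
      exact h1.comp continuous_subtype_val
    set g0 : X →ᵇ (T → ℂ) :=
      BoundedContinuousFunction.mkOfCompact ⟨fun τ : X => F (pr (c τ)), hgcont⟩ with hg0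
    have hg0a : ∀ τ : X, g0 τ = F (pr (c τ)) := fun _ => rfl
    refine ⟨Ψ g0, ⟨g0, ⟨fun τ τ' => ?_, fun τ => ?_⟩, rfl⟩, fun t ht => ?_⟩
    · rw [hg0a, hg0a, dist_pi_le_iff (by positivity)]
      intro i
      rw [dist_eq_norm]
      exact hlip i τ τ'
    · rw [hg0a, mem_closedBall_zero_iff]
      exact hρ _ (mem_univ _)
    · rw [hΨa]
      exact Metric.infDist_zero_of_mem ⟨⟨t, ht⟩, rfl⟩

end Pool.Agent.H351.BR
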